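import Pool.Agent.Helper17.NRC.I
import Pool.Agent.Helper17.NRC.K

/-!
The number of normal rational curves of `PG(k-1,q)`, `q > k`, that contain a given arc.

`IsNRC C` (file `NRC/A`): the point set `C` is the image of `{(t^(k-1), ..., t, 1)} ∪ {(1,0,...,0)}`
under a linear automorphism. `IsArc A` (file `NRC/E`): the elements of `A` are points, and at most
`k-1` of them lie in any hyperplane. `Good F k` (file `NRC/I`): the set of Q1.
`number q k n` (file `NRC/I`): `(q-1)^(k-1) (q-2)(q-3)...(q-k+2)` for `n = k`,
`(q-2)(q-3)...(q-k+1)` for `n = k+1`, and `1` otherwise.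
-/

set_option autoImplicit false

namespace Pool.Agent.Results.MP_8a9ebc_co.CurveCount

open Pool.Agent.Helper17.NRC

/-- For `k ≥ 3` and `q > k`: if every `n`-arc lies in a normal rational curve, then every `n`-arc
lies in exactly `number q k n` of them; the same holds for every single arc with at least `k`
points that is contained in some normal rational curve, and `k`, `k+1`, `k+2` are such `n`.
For `k = 2` there is exactly one normal rational curve, and it contains all arcs. -/
theorem result (F : Type) [Field F] [Fintype F] :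
    (∀ k : ℕ, 3 ≤ k → k < Fintype.card F →
      (∀ n ∈ Good F k, ∀ A : Set (Submodule F (Fin k → F)), IsArc A → A.ncard = n →
        {C : Set (Submodule F (Fin k → F)) | IsNRC C ∧ A ⊆ C}.ncard
          = number (Fintype.card F) k n) ∧
      (∀ A : Set (Submodule F (Fin k → F)), IsArc A → k ≤ A.ncard →
        (A.ncard ≤ k + 2 ∨ ∃ C, IsNRC C ∧ A ⊆ C) →
        {C : Set (Submodule F (Fin k → F)) | IsNRC C ∧ A ⊆ C}.ncard
          = number (Fintype.card F) k A.ncard)) ∧
    (∀ A : Set (Submodule F (Fin 2 → F)), IsArc A →
      {C : Set (Submodule F (Fin 2 → F)) | IsNRC C ∧ A ⊆ C}.ncard = 1) := by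
  refine ⟨fun k hk hq => ⟨?_, ?_⟩, ?_⟩
  · rintro n ⟨h1, h2, h3⟩ A hA rfl
    exact main_number hk hq hA h1 (h3 A hA rfl)
  · rintro A hA h1 h2
    rcases h2 with h2 | h2
    · exact main_number hk hq hA h1 (main_small hk hq hA h1 h2)
    · exact main_number hk hq hA h1 h2
  · intro A hA
    rw [two_line hA, Set.ncard_singleton]

end Pool.Agent.Results.MP_8a9ebc_co.CurveCount
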