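import Pool.Agent.H569R3.NRC.Even

set_option autoImplicit false

namespace Pool.Agent.Results.MP_8a9ebc_co.EvenBound

open Pool.Agent.H569R3.NRC

/-- For even `q` and even `k ≥ 4`, no `n` with `k + 3 ≤ n ≤ q / 2 + 2` belongs to the set of Q1. -/
theorem result {K : Type} [Field K] [Fintype K] (heven : Even (Fintype.card K)) (k : ℕ)
    (hk : 4 ≤ k) (hke : Even k) (n : ℕ) (h1 : k + 3 ≤ n) (h2 : n ≤ Fintype.card K / 2 + 2) :
    ∃ S : Finset (Submodule K (Fin k → K)), IsArc S ∧ S.card = n ∧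
      ¬ ∃ C : Set (Submodule K (Fin k → K)), IsNRC C ∧ ∀ P ∈ S, P ∈ C := by
  obtain ⟨m, rfl⟩ : ∃ m, k = m + 2 := ⟨k - 2, by omega⟩
  refine even_bound heven (by omega) ?_ (by omega) h2
  obtain ⟨r, hr⟩ := hke
  exact ⟨r - 1, by omega⟩

end Pool.Agent.Results.MP_8a9ebc_co.EvenBound
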