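import Pool.Agent.H569R3.NRC.Odd

set_option autoImplicit false

namespace Pool.Agent.Results.MP_8a9ebc_co.OddBound

open Pool.Agent.H569R3.NRC

/-- For odd `q` and `k ≥ 3`, no `n` with `k + 3 ≤ n ≤ (q + 3) / 2` belongs to the set of Q1. -/
theorem result {K : Type} [Field K] [Fintype K] (hodd : Odd (Fintype.card K)) (k : ℕ)
    (hk : 3 ≤ k) (n : ℕ) (h1 : k + 3 ≤ n) (h2 : n ≤ (Fintype.card K + 3) / 2) :
    ∃ S : Finset (Submodule K (Fin k → K)), IsArc S ∧ S.card = n ∧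
      ¬ ∃ C : Set (Submodule K (Fin k → K)), IsNRC C ∧ ∀ P ∈ S, P ∈ C := by
  obtain ⟨m, rfl⟩ : ∃ m, k = m + 2 := ⟨k - 2, by omega⟩
  exact odd_bound hodd (by omega) (by omega) h2

end Pool.Agent.Results.MP_8a9ebc_co.OddBound
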