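import Pool.Agent.Helper17.NRC.I
import Pool.Agent.Helper17.NRC.J
import Pool.Agent.Helper17.NRC.L

/-!
The set of integers `n ≤ q` such that every `n`-arc of `PG(k-1,q)` is contained in a normal
rational curve is `{k, k+1, k+2} ∪ {n : M < n}` cut at `q`, where `M = maxNonrational F k` is the
largest size of an arc in no normal rational curve; bounds and values of `M`.

`IsNRC`, `IsArc`, `Good`, `maxNonrational` are defined in `NRC/A`, `NRC/E`, `NRC/I`, `NRC/L`.
-/

set_option autoImplicit false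

namespace Pool.Agent.Results.MP_8a9ebc_co.RationalSizes

open Pool.Agent.Helper17.NRC

/-- The set of Q1 for `k ≥ 3`, `q > k`: (1) it is `{n | k ≤ n ≤ q, n ≤ k + 2 or M < n}`;
(2) `n ≤ M` as soon as `n ≥ k+3` and `binom(n-1, k-1) + 2 ≤ q`;
(3) `M > q`, so that the set is `{k, k+1, k+2}` cut at `q`, for `q = 2^h` and `k = 3`, and for
`q = 2^h`, `k = 4`, `h = 5` or `h ≥ 7`. -/
theorem result (F : Type) [Field F] [Fintype F] (k : ℕ) (hk : 3 ≤ k) (hq : k < Fintype.card F) :
    (∀ n : ℕ, n ∈ Good F k ↔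
      k ≤ n ∧ n ≤ Fintype.card F ∧ (n ≤ k + 2 ∨ maxNonrational F k < n)) ∧
    (∀ n : ℕ, k + 3 ≤ n → (n - 1).choose (k - 1) + 2 ≤ Fintype.card F →
      n ≤ maxNonrational F k) ∧
    (∀ h : ℕ, Fintype.card F = 2 ^ h → (k = 3 ∨ k = 4 ∧ (h = 5 ∨ 7 ≤ h)) →
      Fintype.card F < maxNonrational F k) := by
  refine ⟨?_, ?_, ?_⟩
  · intro n
    rw [main_good hk hq]
    constructor
    · rintro ⟨h1, h2, h3 | h3⟩
      · exact ⟨h1, h2, Or.inl h3⟩
      · exact ⟨h1, h2, Or.inr ((max_iff (by omega)).1 h3)⟩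
    · rintro ⟨h1, h2, h3 | h3⟩
      · exact ⟨h1, h2, Or.inl h3⟩
      · exact ⟨h1, h2, Or.inr ((max_iff (by omega)).2 h3)⟩
  · intro n hn hn'
    obtain ⟨A, hA, h1, h2⟩ := exists_not hk hq hn hn'
    rw [← h1]
    exact le_max hA h2
  · intro h hF hkh
    have hh : h ≠ 0 := by
      rintro rfl
      rw [pow_zero] at hF
      omega
    have hchar : CharP F 2 := by
      obtain ⟨p, hp⟩ := CharP.exists F
      obtain ⟨m, hpp, hm⟩ := FiniteField.card F p
      have h1 : p ∣ 2 ^ h := by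
        rw [← hF, hm]
        exact dvd_pow_self _ m.ne_zero
      have h2 : p = 2 := (Nat.prime_dvd_prime_iff_eq hpp Nat.prime_two).1 (hpp.dvd_of_dvd_pow h1)
      rwa [h2] at hp
    rcases hkh with rfl | ⟨rfl, hh'⟩
    · obtain ⟨A, hA, h1, h2⟩ := hyperoval_not (F := F)
      have h3 := le_max hA h2
      omega
    · obtain ⟨e, he1, he2, hco⟩ := exists_e h hh'
      have h1 : 2 ^ 2 ≤ 2 ^ e := Nat.pow_le_pow_right (by norm_num) he1
      have h2 : 2 ^ (e + 2) ≤ 2 ^ h := Nat.pow_le_pow_right (by norm_num) he2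
      have h3 : 2 ^ (e + 2) = 4 * 2 ^ e := by rw [pow_add]; ring
      have h4 := le_max (cv_arc (F := F) hF hco) (cv_not (F := F) (σ := 2 ^ e) (by omega) (by omega))
      rw [← Set.image_univ, Set.ncard_image_of_injective _ (cv_inj _), Set.ncard_univ,
        Nat.card_eq_fintype_card, Fintype.card_option] at h4
      omega

end Pool.Agent.Results.MP_8a9ebc_co.RationalSizes
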